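import Pool.Agent.H41.NU.Cls

/-! # Type 2 representations on finite sets: a class closed under gluing

`Valued L r` (see `Pool/Agent/H41/NU/Cls.lean`) is the smallest class of pairs (lattice, real function on it) which
contains the lattices with a uniform type 1 representation on a finite set (for example the lattices of permuting
subgroups of finite groups, the subspace lattices of finite vector spaces) with the logarithm of the class size, and
which is closed under affine changes of the function, sublattices, products and Hall-Dilworth gluing over finite
distributive intervals on which the functions agree. `Tower L` is the smallest class of lattices which contains the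
same basic lattices and is closed under sublattices, products and gluing over two-element chains. -/

set_option autoImplicit false

namespace Pool.Agent.Results.MP_9a066f_al.Closure

open H41.NU

/-- Every lattice of the class `Valued` has a type 2 representation on a finite set. -/
theorem result {L : Type} [Lattice L] {r : L → ℝ} (h : Valued L r) :
    ∃ (A : Type) (_ : Finite A) (F : LatticeHom L (Setoid A)), Function.Injective F ∧
      ∀ x y : L, ∀ a b : A, F (x ⊔ y) a b ↔ ∃ c d : A, F x a c ∧ F y c d ∧ F x d b :=
  h.good.type2

/-- The class `Tower` is contained in the class `Valued`, hence the same holds for its lattices. -/
theorem tower {L : Type} [Lattice L] (h : Tower L) :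
    ∃ (A : Type) (_ : Finite A) (F : LatticeHom L (Setoid A)), Function.Injective F ∧
      ∀ x y : L, ∀ a b : A, F (x ⊔ y) a b ↔ ∃ c d : A, F x a c ∧ F y c d ∧ F x d b := by
  obtain ⟨r, hr⟩ := h.valued
  exact result hr

end Pool.Agent.Results.MP_9a066f_al.Closure
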