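import Pool.Agent.H41.SK.Max
import Pool.Agent.H41.SK.ExU

/-! # Type 2 representations on finite sets: finite modular lattices with an arbitrary skeleton

`result`: a finite modular lattice `L` is covered by intervals `[a, β a]`, `a ∈ A` (`IsSkeleton A β`), every interval
`[a, β a]` has finitely many uniform type 1 homomorphisms which together see every covering once (`UniformBlock`), and
the overlaps are distributive. Then `L` has a type 2 representation on a finite set.

`maximal_intervals`: the case of the maximal complemented intervals: if each of them is a product of lattices of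
subspaces of finite vector spaces and `M_n`'s (or has only a covering preserving homomorphism in such a product) and
the overlap of two of them is distributive, then `L` has a type 2 representation on a finite set. -/

set_option autoImplicit false

namespace Pool.Agent.Results.MP_9a066f_al.SkeletonGluing

open H41.NU H41.SK

/-- `A` and `β` form a skeleton of `L`: `A` contains the least element and is closed under joins, `β` is monotone on
`A`, `a ≤ β a`, and every `z ≥ a` is below `β a` or above some `a' ∈ A` with `a < a' ≤ β a`. -/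
structure IsSkeleton {L : Type} [Lattice L] (A : Set L) (β : L → L) : Prop where
  bot : ∃ a ∈ A, ∀ x, a ≤ x
  sup : ∀ a ∈ A, ∀ a' ∈ A, a ⊔ a' ∈ A
  le : ∀ a ∈ A, a ≤ β a
  mono : ∀ a ∈ A, ∀ a' ∈ A, a ≤ a' → β a ≤ β a'
  cov : ∀ a ∈ A, ∀ z, a ≤ z → z ≤ β a ∨ ∃ a' ∈ A, a < a' ∧ a' ≤ β a ∧ a' ≤ z

/-- The interval `[a, b]` is a uniform block: there are finitely many maps `f i` of it to the equivalence relations
on finite non-empty sets `W i` which take meets to intersections and joins to relational products (type 1), all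
classes of `f i x` have the same number `n i x` of elements, and for every covering `x ⋖ y` in `[a, b]` exactly one
of the `n i` changes, it is multiplied by the number `q i ≥ 2`. -/
def UniformBlock {L : Type} [Lattice L] (a b : L) : Prop :=
  ∃ (k : ℕ) (W : Fin k → Type) (_ : ∀ i, Finite (W i)) (_ : ∀ i, Nonempty (W i)) (f : ∀ i, L → Setoid (W i))
    (n : Fin k → L → ℕ) (q : Fin k → ℕ), (∀ i, 2 ≤ q i) ∧
    (∀ i x y, a ≤ x → x ≤ b → a ≤ y → y ≤ b → f i (x ⊓ y) = f i x ⊓ f i y ∧
      ∀ s t, f i (x ⊔ y) s t ↔ ∃ v, f i x s v ∧ f i y v t) ∧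
    (∀ i x, a ≤ x → x ≤ b → ∀ w, {v | f i x w v}.ncard = n i x) ∧
    ∀ x y, a ≤ x → x ⋖ y → y ≤ b → ∃ i, n i y = q i * n i x ∧ ∀ j, j ≠ i → n j y = n j x

/-- A finite modular lattice with a skeleton whose blocks are uniform and whose overlaps are distributive has a
type 2 representation on a finite set. -/
theorem result {L : Type} [Lattice L] [Finite L] [IsModularLattice L] {A : Set L} {β : L → L}
    (hs : IsSkeleton A β) (hblock : ∀ a ∈ A, UniformBlock a (β a))
    (hover : ∀ a ∈ A, ∀ a' ∈ A, a < a' → a' ≤ β a → ∀ x y z, a' ≤ x → x ≤ β a → a' ≤ y → y ≤ β a →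
      a' ≤ z → z ≤ β a → x ⊓ (y ⊔ z) = (x ⊓ y) ⊔ (x ⊓ z)) :
    ∃ (U : Type) (_ : Finite U) (F : LatticeHom L (Setoid U)), Function.Injective F ∧
      ∀ x y : L, ∀ s t : U, F (x ⊔ y) s t ↔ ∃ c d : U, F x s c ∧ F y c d ∧ F x d t := by
  obtain ⟨a0, ha0, h0⟩ := hs.bot
  have : Nonempty L := ⟨a0⟩
  obtain ⟨m, hm⟩ := exists_top L
  obtain ⟨r, hr, hcov⟩ := exists_height L
  refine (good_skel hr ⟨hs.sup, hs.le, hs.mono, hs.cov, hover⟩ hm h0 ha0 ?_).type2
  intro a ha
  obtain ⟨k, W, _, _, f, n, q, h1, h2, h3, h4⟩ := hblock a ha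
  exact exact_ublock (hs.le a ha) hcov k W f n q h1 (fun i x y h5 h6 h7 h8 => (h2 i x y h5 h6 h7 h8).1)
    (fun i x y h5 h6 h7 h8 s t h => ((h2 i x y h5 h6 h7 h8).2 s t).1 h) h3 h4

/-- A finite modular lattice whose maximal complemented intervals are Desarguesian (`Desarg`; products of lattices of
subspaces and `M_n`'s) and have distributive overlaps has a type 2 representation on a finite set. -/
theorem maximal_intervals (L : Type) [Lattice L] [Finite L] [Nonempty L] [IsModularLattice L]
    (h1 : ∀ x u : L, MaxBlock x u → Desarg x u)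
    (h2 : ∀ x u y v : L, MaxBlock x u → MaxBlock y v → x < y → y ≤ u →
      ∀ p q s, y ≤ p → p ≤ u → y ≤ q → q ≤ u → y ≤ s → s ≤ u → p ⊓ (q ⊔ s) = (p ⊓ q) ⊔ (p ⊓ s)) :
    ∃ (U : Type) (_ : Finite U) (F : LatticeHom L (Setoid U)), Function.Injective F ∧
      ∀ x y : L, ∀ s t : U, F (x ⊔ y) s t ↔ ∃ c d : U, F x s c ∧ F y c d ∧ F x d t := by
  obtain ⟨r, hr⟩ := good_max L h1 h2
  exact hr.type2

end Pool.Agent.Results.MP_9a066f_al.SkeletonGluing
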