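import Mathlib
import Pool.Agent.H77.Glue.Abstract
import Pool.Agent.H77.Glue.Num
import Pool.Agent.H77.Glue.Upper
import Pool.Agent.H77.Glue.Lower

set_option autoImplicit false

namespace Pool.Agent.Results.MP_9a066f_al.TwoChainGluing

open Pool.Agent.H77.Glue

theorem exists_matching {F E L U : Type} [Field F] [Finite F] [AddCommGroup E] [Module F E]
    [Finite E] [Lattice L] (R : LatticeHom L (Setoid U)) (hRi : Function.Injective R)
    (hR : IsType2 R) [Finite U]
    (top a : L) (htop : ∀ x, x ≤ top) (ha : a < top) (d : ℕ) (hd : 1 ≤ d)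
    (h : E →ₗ[F] (Fin d → F)) :
    ∃ (j l : ℕ) (A : Finset (Fin l → F)), 1 ≤ j ∧ 1 ≤ l ∧
      2 * d * (Nat.card (Fin l → F) - A.card) < Nat.card (Fin l → F) ∧
      ∃ Φ : Quotient (prodHom R top htop hR (Fin j × Quotient (R top)) Prod.snd a) →
        (Fin d → Fin l → F), Function.Injective Φ ∧ ∀ c, c ∈ Set.range Φ ↔ ∀ i, c i ∈ A := by
  classical
  have : Finite (Quotient (R top)) := Quotient.finite _
  have := Fintype.ofFinite (Quotient (R top))
  have := Fintype.ofFinite F
  have hFibF : ∀ q, Finite (Fib R top a ha.le q) := fun q => Subtype.finite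
  have hFibN : ∀ q, Nonempty (Fib R top a ha.le q) := by
    intro q
    obtain ⟨u, rfl⟩ := Quotient.exists_rep q
    exact ⟨⟨Quotient.mk _ u, rfl⟩⟩
  set k : ℕ := ∏ q : Quotient (R top), Nat.card (Fib R top a ha.le q) with hk
  have hk2 : 2 ≤ k := by
    have hlt : R a < R top := by
      refine lt_of_le_of_ne (OrderHomClass.mono R ha.le) (fun he => ha.ne (hRi he))
    have : ∃ s t, R top s t ∧ ¬ R a s t := by
      by_contra hcon
      push Not at hcon
      exact hlt.not_ge (fun {s t} hst => hcon s t hst)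
    obtain ⟨s, t, h1, h2⟩ := this
    have h3 : 2 ≤ Nat.card (Fib R top a ha.le (Quotient.mk _ s)) := by
      have : Nontrivial (Fib R top a ha.le (Quotient.mk _ s)) := by
        refine ⟨⟨⟨Quotient.mk _ s, rfl⟩, ⟨Quotient.mk _ t, Quotient.sound (Setoid.symm' _ h1)⟩, ?_⟩⟩
        intro he
        exact h2 (Quotient.exact (congrArg Subtype.val he))
      exact Finite.one_lt_card_iff_nontrivial.2 this
    refine h3.trans ?_
    apply Nat.le_of_dvd
    · exact Finset.prod_pos (fun q _ => Nat.card_pos)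
    · exact Finset.dvd_prod_of_mem _ (Finset.mem_univ _)
  have hq : 2 ≤ Nat.card F := Finite.one_lt_card
  obtain ⟨j, l, hj, hl, h1, h2⟩ := exists_pow_close k (Nat.card F) (2 * d) hk2 hq
  have hcl : Nat.card (Fin l → F) = Nat.card F ^ l := by
    rw [Nat.card_fun, Nat.card_fin]
  have hcl' : (Finset.univ : Finset (Fin l → F)).card = Nat.card F ^ l := by
    rw [Finset.card_univ, ← Nat.card_eq_fintype_card, hcl]
  obtain ⟨A, -, hA⟩ := Finset.exists_subset_card_eq (s := (Finset.univ : Finset (Fin l → F)))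
    (n := k ^ j) (by rw [hcl']; exact h1)
  refine ⟨d * j, l, A, Nat.mul_pos hd hj, hl, ?_, ?_⟩
  · rw [hcl, hA]; exact h2
  · have hcardD : Nat.card (Quotient (prodHom R top htop hR
        (Fin (d * j) × Quotient (R top)) Prod.snd a)) = k ^ (d * j) := by
      rw [card_classes R top htop hR _ _ a ha.le, Nat.card_pi, Fintype.prod_prod_type]
      simp only
      rw [Finset.prod_const, Finset.card_univ, Fintype.card_fin]
    have hcardA : Nat.card {c : Fin d → Fin l → F // ∀ i, c i ∈ A} = k ^ (d * j) := by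
      rw [Nat.card_congr (Equiv.subtypePiEquivPi (p := fun {_ : Fin d} (x : Fin l → F) => x ∈ A)),
        Nat.card_fun, Nat.card_fin, Nat.card_eq_fintype_card, Fintype.card_coe, hA, ← pow_mul,
        Nat.mul_comm]
    have : Finite (Quotient (prodHom R top htop hR
        (Fin (d * j) × Quotient (R top)) Prod.snd a)) := Quotient.finite _
    obtain ⟨e⟩ : Nonempty (Quotient (prodHom R top htop hR
        (Fin (d * j) × Quotient (R top)) Prod.snd a) ≃
        {c : Fin d → Fin l → F // ∀ i, c i ∈ A}) := by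
      have := Fintype.ofFinite (Quotient (prodHom R top htop hR
        (Fin (d * j) × Quotient (R top)) Prod.snd a))
      rw [Nat.card_eq_fintype_card] at hcardD hcardA
      exact ⟨Fintype.equivOfCardEq (hcardD.trans hcardA.symm)⟩
    refine ⟨fun q => (e q).1, ?_, ?_⟩
    · intro p q hpq
      exact e.injective (Subtype.ext hpq)
    · intro c
      constructor
      · rintro ⟨q, rfl⟩
        exact (e q).2
      · intro hc
        exact ⟨e.symm ⟨c, hc⟩, by simp⟩

/-- Gluing over a two-element chain: if the lower part has a finite type 2 representation in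
which the coatom `a` permutes with everything, and the upper part embeds in the subspace lattice
of a finite vector space, then the glued lattice has a finite type 2 representation. -/
theorem result {F : Type} [Field F] [Finite F] (m : ℕ)
    (L : Type) [Lattice L] (a b : L) (hab : a ⋖ b) (hcov : ∀ x : L, x ≤ b ∨ a ≤ x)
    (U : Type) [Finite U] (R : LatticeHom (Set.Iic b) (Setoid U)) (hRi : Function.Injective R)
    (hR : ∀ x y : Set.Iic b, ∀ s t : U,
      R (x ⊔ y) s t ↔ ∃ c d : U, R x s c ∧ R y c d ∧ R x d t)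
    (hRa : ∀ y : Set.Iic b, ∀ s t : U,
      (∃ c : U, R ⟨a, hab.le⟩ s c ∧ R y c t) ↔ ∃ c : U, R y s c ∧ R ⟨a, hab.le⟩ c t)
    (f : LatticeHom (Set.Ici a) (Submodule F (Fin m → F))) (hf : Function.Injective f) :
    ∃ (A : Type) (_ : Finite A) (G : LatticeHom L (Setoid A)),
      Function.Injective G ∧
      ∀ x y : L, ∀ s t : A,
        G (x ⊔ y) s t ↔ ∃ c d : A, G x s c ∧ G y c d ∧ G x d t := by
  classical
  have hR2 : IsType2 R := fun x y s t h => (hR x y s t).1 h
  have htop : ∀ x : Set.Iic b, x ≤ ⟨b, le_rfl⟩ := fun x => x.2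
  have hfab : f ⟨a, le_rfl⟩ < f ⟨b, hab.le⟩ := by
    refine lt_of_le_of_ne (OrderHomClass.mono f (show (⟨a, _⟩ : Set.Ici a) ≤ ⟨b, _⟩ from hab.le)) ?_
    intro he
    exact hab.ne (congrArg Subtype.val (hf he))
  have : Finite (Fin m → F) := Pi.finite
  obtain ⟨d, h, hh0, hh1⟩ := exists_functionals (f ⟨a, le_rfl⟩) (f ⟨b, hab.le⟩)
  have hd : 1 ≤ d := by
    by_contra hd
    have : d = 0 := by omega
    subst this
    apply hfab.not_ge
    intro v hv
    exact (hh0 v hv).1 (Subsingleton.elim _ _)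
  obtain ⟨j, l, A, hj, hl, hA, Φ, hΦ, hΦr⟩ := exists_matching (E := Fin m → F) R hRi hR2
    ⟨b, le_rfl⟩ ⟨a, hab.le⟩ htop (show (⟨a, _⟩ : Set.Iic b) < ⟨b, _⟩ from hab.lt) d hd h
  have := Fintype.ofFinite F
  have := Fintype.ofFinite (Fin m → F)
  let S2 : LatticeHom (Set.Ici a) (AddSubgroup (Fin l → Fin m → F)) := (powSub l).comp f
  have hS2i : Function.Injective S2 := (powSub_injective l hl).comp hf
  let S1 := prodHom R ⟨b, le_rfl⟩ htop hR2 (Fin j × Quotient (R ⟨b, le_rfl⟩)) Prod.snd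
  have hS1i : Function.Injective S1 := by
    apply prodHom_injective R ⟨b, le_rfl⟩ htop hR2 _ _ hRi
    intro q
    exact ⟨(⟨0, hj⟩, q), rfl⟩
  have hH0 : ∀ v ∈ S2 ⟨b, hab.le⟩, powFun l h v = 0 → v ∈ S2 ⟨a, le_rfl⟩ := by
    intro v hv hv0 t
    apply (hh0 (v t) (hv t)).1
    ext i
    exact congrFun (congrFun hv0 i) t
  have hH0' : ∀ v ∈ S2 ⟨a, le_rfl⟩, powFun l h v = 0 := by
    intro v hv
    ext i t
    have := (hh0 (v t) (hfab.le (hv t))).2 (hv t)
    exact congrFun this i
  have hH1 : ∀ c, ∃ v ∈ S2 ⟨b, hab.le⟩, powFun l h v = c := by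
    intro c
    choose v hv1 hv2 using fun t : Fin l => hh1 (fun i => c i t)
    refine ⟨v, hv1, ?_⟩
    ext i t
    exact congrFun (hv2 t) i
  have hS1b : ∀ w w', S1 ⟨b, le_rfl⟩ w w' := fun w w' =>
    prodHom_top R ⟨b, le_rfl⟩ htop hR2 _ _ w w'
  have hcomm : ∀ y : Set.Iic b, ¬ y.1 ≤ a → ∀ w w', ∃ w'', S1 y w w'' ∧
      S1 ⟨a, hab.le⟩ w'' w' := by
    intro y hy w w'
    apply prodHom_comm R ⟨b, le_rfl⟩ htop hR2 _ _ ⟨a, hab.le⟩ _ _ y hy w w'
    · intro y hy
      apply Subtype.ext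
      show y.1 ⊔ a = b
      rcases hab.eq_or_eq (show a ≤ y.1 ⊔ a from le_sup_right) (sup_le y.2 hab.le) with h | h
      · exact absurd (show y ≤ ⟨a, hab.le⟩ from (by
          show y.1 ≤ a
          rw [← h]; exact le_sup_left)) hy
      · exact h
    · intro y p q t h1 h2
      exact (hRa y p t).1 ⟨q, h1, h2⟩
  have hrob : ∀ x : Set.Ici a, ∀ v v', powFun l h v ∈ Set.range Φ →
      powFun l h v' ∈ Set.range Φ → ∀ ξ0 ∈ S2 x, ∃ ξ1 ∈ S2 x,
      powFun l h (v + ξ1) ∈ Set.range Φ ∧ powFun l h (v' - ξ0 + ξ1) ∈ Set.range Φ := by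
    intro x v v' hv hv' ξ0 hξ0
    rw [hΦr] at hv hv'
    simp only [hΦr]
    refine robust_pow h (f x) A ?_ v v' hv hv' ξ0 hξ0
    rw [← Nat.card_eq_fintype_card]
    exact hA
  have hS12 : IsType2 S1 := prodHom_type2 R ⟨b, le_rfl⟩ htop hR2 _ _
  let G := glueHom S2 (powFun l h) hab.le S1 Φ hab hH0 hH0' hH1 hS1b hΦ hcov hS12 hcomm hrob
  have : Finite (Quotient (R ⟨b, le_rfl⟩)) := Quotient.finite _
  refine ⟨Base (powFun l h) hab.le S1 Φ, ?_, G, ?_, ?_⟩
  · have h1 : Finite (Blk R ⟨b, le_rfl⟩ (Fin j × Quotient (R ⟨b, le_rfl⟩)) Prod.snd) :=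
      inferInstance
    have h2 : Finite (Fin l → Fin m → F) := inferInstance
    exact Subtype.finite
  · exact glueHom_injective S2 (powFun l h) hab.le S1 Φ hab hH0 hH0' hH1 hS1b hΦ hcov hS12
      hcomm hrob hS2i hS1i
  · intro x y s t
    constructor
    · intro hst
      exact type2_aux S2 (powFun l h) hab.le S1 Φ hab hH0 hH0' hH1 hS1b hΦ hcov hS12 hcomm hrob
        x y s t hst
    · rintro ⟨c, e, h1, h2, h3⟩
      have l1 : G x ≤ G (x ⊔ y) := OrderHomClass.mono G le_sup_left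
      have l2 : G y ≤ G (x ⊔ y) := OrderHomClass.mono G le_sup_right
      exact Setoid.trans' _ (l1 h1) (Setoid.trans' _ (l2 h2) (l1 h3))

end Pool.Agent.Results.MP_9a066f_al.TwoChainGluing
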